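import Pool.Agent.PFB.StmtsB

/-!
# PFB squad (MP_e54c4c_gt), row B_PLN: extreme rays of a plane section
-/

set_option autoImplicit false

open Matrix Filter Topology

namespace Pool.Agent.PFB.H28

open Pool.Agent.PFS

/-- the largest multiple of `v` below `u` -/
theorem maxeps {n : ℕ} {C : Set (V n)} (hC : PCone C) {u v : V n} (hu : u ∈ closure C)
    (hv : v ∈ closure C) (hv0 : v ≠ 0) :
    ∃ ε : ℝ, 0 ≤ ε ∧ u - ε • v ∈ closure C ∧ ∀ δ : ℝ, ε < δ → u - δ • v ∉ closure C := by
  obtain ⟨B, hB, hnorm⟩ := hC.normal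
  set S : Set ℝ := {ε : ℝ | 0 ≤ ε ∧ u - ε • v ∈ closure C} with hS
  have h0 : (0 : ℝ) ∈ S := ⟨le_rfl, by rw [zero_smul, sub_zero]; exact hu⟩
  have hvn : 0 < ‖v‖ := norm_pos_iff.mpr hv0
  have hbdd : BddAbove S := by
    refine ⟨B * ‖u‖ / ‖v‖, ?_⟩
    rintro ε ⟨hε, hε2⟩
    have h1 := hnorm (ε • v) u (hC.cl_smul hv hε) hε2
    rw [norm_smul, Real.norm_of_nonneg hε] at h1
    rw [le_div_iff₀ hvn]
    exact h1
  have hcl : IsClosed S := by
    have h1 : IsClosed {ε : ℝ | 0 ≤ ε} := isClosed_le continuous_const continuous_id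
    have hc : Continuous fun ε : ℝ => u - ε • v := by fun_prop
    have h2 : IsClosed {ε : ℝ | u - ε • v ∈ closure C} := isClosed_closure.preimage hc
    exact h1.inter h2
  have hmem : sSup S ∈ S := hcl.csSup_mem ⟨0, h0⟩ hbdd
  refine ⟨sSup S, hmem.1, hmem.2, ?_⟩
  intro δ hδ hmemδ
  have : δ ∈ S := ⟨(hmem.1.trans_lt hδ).le, hmemδ⟩
  exact absurd (le_csSup hbdd this) (not_le.mpr hδ)

theorem li_pair {n : ℕ} {u v : V n} (h : LinearIndependent ℝ ![u, v]) {s t : ℝ}
    (hst : s • u + t • v = 0) : s = 0 ∧ t = 0 := LinearIndependent.pair_iff.mp h s t hst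

/-- **Row PLN.** -/
theorem pln : PlnStmt := by
  intro n C hC u hu v hv hli
  have hu0 : u ≠ 0 := hli.ne_zero 0
  have hv0 : v ≠ 0 := hli.ne_zero 1
  obtain ⟨x, hx, hxu, hxmax⟩ := maxeps hC hu hv hv0
  obtain ⟨y, hy, hyv, hymax⟩ := maxeps hC hv hu hu0
  -- x * y < 1
  have hxy : x * y < 1 := by
    by_contra hcon
    push Not at hcon
    -- u ≥ x v ≥ x y u
    have h1 : x • v - (x * y) • u ∈ closure C := by
      have := hC.cl_smul hyv hx
      rwa [smul_sub, smul_smul] at this
    have h2 : u - (x * y) • u ∈ closure C := hC.le_trans h1 hxu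
    have h3 : (x * y - 1) • u ∈ closure C := hC.cl_smul hu (by linarith)
    have h4 : -((x * y - 1) • u) ∈ closure C := by
      have e : -((x * y - 1) • u) = u - (x * y) • u := by rw [sub_smul, one_smul]; abel
      rw [e]; exact h2
    have h5 := hC.salient _ h3 h4
    have h6 : x * y = 1 := by
      rcases smul_eq_zero.mp h5 with h | h
      · linarith
      · exact absurd h hu0
    have h7 : -(u - x • v) ∈ closure C := by
      rw [h6, one_smul] at h1
      rwa [neg_sub]
    have h8 := hC.salient _ hxu h7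
    have h9 := li_pair hli (s := 1) (t := -x) (by rw [one_smul, neg_smul, ← sub_eq_add_neg]; exact h8)
    exact one_ne_zero h9.1
  set D := 1 - x * y with hD
  have hDp : 0 < D := by rw [hD]; linarith
  have hD0 : D ≠ 0 := hDp.ne'
  refine ⟨u - x • v, v - y • u, D⁻¹, D⁻¹ * x, D⁻¹ * y, D⁻¹, hxu, hyv, ?_, ?_, ?_,
    inv_pos.mpr hDp, mul_nonneg (inv_pos.mpr hDp).le hx, mul_nonneg (inv_pos.mpr hDp).le hy,
    inv_pos.mpr hDp, ?_, ?_, ?_, ?_⟩
  · rw [sub_sub_cancel]; exact hC.cl_smul hv hx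
  · rw [sub_sub_cancel]; exact hC.cl_smul hu hy
  · rw [LinearIndependent.pair_iff]
    intro s t hst
    have e : (s - t * y) • u + (t - s * x) • v = 0 := by
      rw [← hst]; module
    obtain ⟨e1, e2⟩ := li_pair hli e
    have e3 : s * D = 0 := by rw [hD]; nlinarith
    have e4 : s = 0 := by
      rcases mul_eq_zero.mp e3 with h | h
      · exact h
      · exact absurd h hD0
    refine ⟨e4, ?_⟩
    rw [e4] at e2
    linarith
  · have e : D⁻¹ • (u - x • v) + (D⁻¹ * x) • (v - y • u) = (D⁻¹ * D) • u := by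
      rw [hD]; module
    rw [e, inv_mul_cancel₀ hD0, one_smul]
  · have e : (D⁻¹ * y) • (u - x • v) + D⁻¹ • (v - y • u) = (D⁻¹ * D) • v := by
      rw [hD]; module
    rw [e, inv_mul_cancel₀ hD0, one_smul]
  · intro η hη hmem
    have hp : 0 < 1 + η * y := by positivity
    apply hxmax ((x + η) / (1 + η * y))
    · rw [lt_div_iff₀ hp]
      nlinarith
    · have e : u - ((x + η) / (1 + η * y)) • v =
          (1 + η * y)⁻¹ • (u - x • v - η • (v - y • u)) := by
        have e1 : u - x • v - η • (v - y • u) = (1 + η * y) • u - (x + η) • v := by module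
        rw [e1, smul_sub, smul_smul, smul_smul, inv_mul_cancel₀ hp.ne', one_smul,
          div_eq_inv_mul]
      rw [e]
      exact hC.cl_smul hmem (inv_pos.mpr hp).le
  · intro η hη hmem
    have hp : 0 < 1 + η * x := by positivity
    apply hymax ((y + η) / (1 + η * x))
    · rw [lt_div_iff₀ hp]
      nlinarith
    · have e : v - ((y + η) / (1 + η * x)) • u =
          (1 + η * x)⁻¹ • (v - y • u - η • (u - x • v)) := by
        have e1 : v - y • u - η • (u - x • v) = (1 + η * x) • v - (y + η) • u := by module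
        rw [e1, smul_sub, smul_smul, smul_smul, inv_mul_cancel₀ hp.ne', one_smul,
          div_eq_inv_mul]
      rw [e]
      exact hC.cl_smul hmem (inv_pos.mpr hp).le

end Pool.Agent.PFB.H28
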