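import Pool.Agent.PFB.StmtsG

/-!
# PFB squad (MP_e54c4c_gt), row G_SEL: Selberg's centraliser trick
-/

set_option autoImplicit false

open Matrix Filter Topology

namespace Pool.Agent.PFB.H28

open Pool.Agent.PFS

/-- elements of the limit cone are nonzero elements of the closed cone -/
theorem lamC_cl {n : ℕ} {C : Set (V n)} {Γ : Subgroup (GL (Fin n) ℝ)} (hC : PCone C)
    {x : V n} (hx : x ∈ LamC C Γ) : x ∈ closure C ∧ x ≠ 0 := by
  obtain ⟨t, ht, u, hu, rfl⟩ := hx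
  obtain ⟨hu1, hu2, -, -⟩ := hu
  refine ⟨hC.cl_smul hu2 ht.le, ?_⟩
  intro h0
  rcases smul_eq_zero.mp h0 with h | h
  · exact ht.ne' h
  · rw [h, norm_zero] at hu1
    exact zero_ne_one hu1

/-- sum of two nonzero elements of the closed cone is nonzero -/
theorem add_ne {n : ℕ} {C : Set (V n)} (hC : PCone C) {x y : V n} (hx : x ∈ closure C)
    (hy : y ∈ closure C) (hx0 : x ≠ 0) : x + y ≠ 0 := by
  intro h
  apply hx0
  apply hC.salient x hx
  have : -x = y := (neg_eq_of_add_eq_zero_right h)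
  rw [this]; exact hy

/-- the quantity whose limit is bounded -/
theorem tend_bot {K : ℕ} (ℓ : Fin (K + 2) → ℝ) (hℓ : ℓ ≠ 0) (Q : ℕ → ℝ) (q : ℝ)
    (hQ : Tendsto Q atTop (𝓝 q)) (φ : ℕ → ℕ) (hφ : StrictMono φ) (b : ℝ) :
    ∀ᶠ m in atTop, Q m - (φ m : ℝ) * ∑ i, ℓ i ^ 2 < b := by
  have hS : 0 < ∑ i, ℓ i ^ 2 := by
    obtain ⟨i, hi⟩ := Function.ne_iff.mp hℓ
    apply Finset.sum_pos' (fun j _ => sq_nonneg _)
    exact ⟨i, Finset.mem_univ i, by simpa using (sq_pos_of_ne_zero hi)⟩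
  have h1 : Tendsto (fun m => (φ m : ℝ) * ∑ i, ℓ i ^ 2) atTop atTop :=
    (tendsto_natCast_atTop_atTop.comp hφ.tendsto_atTop).atTop_mul_const hS
  have h2 : Tendsto (fun m => Q m - (φ m : ℝ) * ∑ i, ℓ i ^ 2) atTop atBot := by
    have h3 : Tendsto (fun m => Q m + -((φ m : ℝ) * ∑ i, ℓ i ^ 2)) atTop atBot :=
      hQ.add_atBot (tendsto_neg_atTop_atBot.comp h1)
    exact h3
  exact h2.eventually (eventually_lt_atBot b)

/-- **Row SEL.** -/
theorem sel (fce : FceStmt) (eig : EigStmt) (zbx : ZbxStmt) (fix : FixStmt) : SelStmt := by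
  intro n C Γ hC K d T hT hD w hw σ hσ lam mu hlam hlm h0 h1 hap ℓ hℓ hℓs
  classical
  have hPES := hT.pes w hw
  have hwcl : ∀ i, w i ∈ closure C := fun i => (lamC_cl hC.toPCone (hPES.2 i)).1
  have hw0 : ∀ i, w i ≠ 0 := fun i => (lamC_cl hC.toPCone (hPES.2 i)).2
  -- the zooming sequence
  obtain ⟨φ, g, s, W, hφ, hg, hs, hW, hlim, hface, hapx⟩ :=
    zbx n C Γ hC K d T hT hD w hw (fun m i => Real.exp ((m : ℝ) * ℓ i))
      (fun m i => Real.exp_pos _)
  have hPESW := hT.pes W hW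
  have hW0 : ∀ i, W i ≠ 0 := fun i => (lamC_cl hC.toPCone (hPESW.2 i)).2
  -- sigma is diagonal
  have hdiag : ∀ i, ∃ nu : ℝ, 0 < nu ∧ act σ (w i) = nu • w i := by
    intro i
    refine Fin.cases ⟨lam, hlam, h0⟩ (fun j => ?_) i
    refine Fin.cases ⟨mu, hlam.trans hlm, h1⟩ (fun k => hap k) j
  -- finitely many conjugates
  have hp : ∑ i, W i ∈ C := by
    have := hPESW.1.pos (fun _ => 1) (fun _ => one_pos)
    simpa using this
  have hfin := fix n C Γ hC (K + 2) w hPES σ hσ hdiag g s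
    (fun m i => Real.exp (((φ m : ℕ) : ℝ) * ℓ i)) (∑ i, W i) hg hs
    (fun m i => Real.exp_pos _) hp (by
      have : Tendsto (fun m => ∑ i, s m • act (g m) (Real.exp (((φ m : ℕ) : ℝ) * ℓ i) • w i))
          atTop (𝓝 (∑ i, W i)) := tendsto_finsetSum _ fun i _ => hlim i
      refine this.congr fun m => ?_
      rw [CC.act_sum, Finset.smul_sum])
  -- an infinite set of indices with the same conjugate
  have hinf : ∃ τ : GL (Fin n) ℝ, {m : ℕ | g m * σ * (g m)⁻¹ = τ}.Infinite := by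
    by_contra hcon
    push Not at hcon
    have hun : (Set.univ : Set ℕ) ⊆ ⋃ τ ∈ (Set.range fun m => g m * σ * (g m)⁻¹),
        {m : ℕ | g m * σ * (g m)⁻¹ = τ} := by
      intro m _
      simp only [Set.mem_iUnion]
      exact ⟨g m * σ * (g m)⁻¹, ⟨m, rfl⟩, rfl⟩
    have : (Set.univ : Set ℕ).Finite :=
      (hfin.biUnion fun τ _ => hcon τ).subset hun
    exact Set.infinite_univ this
  obtain ⟨τ, hτ⟩ := hinf
  obtain ⟨m0, hm0⟩ := hτ.nonempty
  -- the norms
  set Q : ℕ → ℝ := fun m => ∑ i, ℓ i *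
    Real.log ‖s m • act (g m) (Real.exp (((φ m : ℕ) : ℝ) * ℓ i) • w i)‖ with hQdef
  have hQ : Tendsto Q atTop (𝓝 (∑ i, ℓ i * Real.log ‖W i‖)) := by
    apply tendsto_finsetSum
    intro i _
    exact ((hlim i).norm.log (norm_ne_zero_iff.mpr (hW0 i))).const_mul (ℓ i)
  obtain ⟨N, hN⟩ := eventually_atTop.mp
    (tend_bot ℓ hℓ Q _ hQ φ hφ (Q m0 - (φ m0 : ℝ) * ∑ i, ℓ i ^ 2))
  obtain ⟨m, hm, hmN⟩ := hτ.exists_gt N
  have hlt := hN m hmN.le
  -- the element
  set γ : GL (Fin n) ℝ := (g m0)⁻¹ * g m with hγ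
  have hγΓ : γ ∈ Γ := Γ.mul_mem (Γ.inv_mem (hg m0)) (hg m)
  have hcomm : σ * γ = γ * σ := by
    have e : g m * σ * (g m)⁻¹ = g m0 * σ * (g m0)⁻¹ := by
      rw [show g m * σ * (g m)⁻¹ = τ from hm, show g m0 * σ * (g m0)⁻¹ = τ from hm0]
    have e2 : g m * σ = g m0 * σ * (g m0)⁻¹ * g m := by
      rw [← e]; group
    rw [hγ]
    calc σ * ((g m0)⁻¹ * g m) = (g m0)⁻¹ * (g m0 * σ * (g m0)⁻¹ * g m) := by group
      _ = (g m0)⁻¹ * (g m * σ) := by rw [e2]
      _ = (g m0)⁻¹ * g m * σ := by group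
  have hγact : ∀ y : V n, act (g m0) (act γ y) = act (g m) y := by
    intro y
    rw [← CC.act_mul, hγ]
    congr 2
    group
  have hr : 0 < s m / s m0 := div_pos (hs m) (hs m0)
  -- gamma preserves the face up to scaling
  have hmapF : ∀ y ∈ EF C w, (s m / s m0) • act γ y ∈ EF C w := by
    intro y hy
    rw [← hface m0]
    have e : s m0 • act (g m0) ((s m / s m0) • act γ y) = s m • act (g m) y := by
      rw [CC.act_smul, hγact, smul_smul, mul_div_cancel₀ _ (hs m0).ne']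
    rw [e]
    exact (hface m y).mpr hy
  have hmapcl : ∀ y ∈ closure (EF C w), (s m / s m0) • act γ y ∈ closure (EF C w) := by
    intro y hy
    have hcont : Continuous fun y : V n => (s m / s m0) • act γ y :=
      (continuous_const_smul (s m / s m0)).comp (CC.act_continuous γ)
    have := image_closure_subset_closure_image hcont (s := EF C w) ⟨y, hy, rfl⟩
    refine closure_mono ?_ this
    rintro _ ⟨z, hz, rfl⟩
    exact hmapF z hz
  -- the two vertices are in the closed face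
  have hx : w 0 + w 1 ∈ closure C := hC.cl_add (hwcl 0) (hwcl 1)
  have hx0 : w 0 + w 1 ≠ 0 := add_ne hC.toPCone (hwcl 0) (hwcl 1) (hw0 0)
  obtain ⟨f1, -, -, -, -, f6⟩ := fce n C hC.toPCone (w 0 + w 1) hx hx0
  have hF0 : w 0 ∈ closure (EF C w) := by
    refine f6 (w 0 + w 1) (subset_closure f1) (w 0) (hwcl 0) 1 ?_
    rw [one_smul, add_sub_cancel_left]; exact hwcl 1
  have hF1 : w 1 ∈ closure (EF C w) := by
    refine f6 (w 0 + w 1) (subset_closure f1) (w 1) (hwcl 1) 1 ?_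
    rw [one_smul, add_sub_cancel_right]; exact hwcl 0
  -- action of gamma on a vertex of the edge
  have hcommact : ∀ y : V n, act σ (act γ y) = act γ (act σ y) := by
    intro y
    rw [← CC.act_mul, ← CC.act_mul, hcomm]
  have hE : ∀ i : Fin (K + 2), w i ∈ closure (EF C w) → ∀ κ : ℝ, act σ (w i) = κ • w i →
      act σ ((s m / s m0) • act γ (w i)) = κ • ((s m / s m0) • act γ (w i)) := by
    intro i _ κ hκ
    rw [CC.act_smul, hcommact, hκ, CC.act_smul, smul_comm]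
  have hne : ∀ i : Fin (K + 2), (s m / s m0) • act γ (w i) ≠ 0 := by
    intro i h
    rcases smul_eq_zero.mp h with h | h
    · exact hr.ne' h
    · apply hw0 i
      apply CC.act_injective γ
      rw [h, CC.act_zero]
  have hv0 : ∃ c : ℝ, 0 < c ∧ act γ (w 0) = c • w 0 := by
    rcases eig n C Γ hC K d T hT w hw σ hσ lam mu hlam hlm h0 h1 _ (hmapcl _ hF0) (hne 0) lam
      (hE 0 hF0 lam h0) with ⟨c, hc, he⟩ | ⟨c, hc, he⟩
    · refine ⟨(s m / s m0)⁻¹ * c, mul_pos (inv_pos.mpr hr) hc, ?_⟩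
      rw [mul_smul, ← he, smul_smul, inv_mul_cancel₀ hr.ne', one_smul]
    · exfalso
      have e1 := hE 0 hF0 lam h0
      rw [he, CC.act_smul, h1, smul_comm] at e1
      have e2 : (mu - lam) • (c • w 1) = 0 := by rw [sub_smul, e1, sub_self]
      rcases smul_eq_zero.mp e2 with h | h
      · exact hlm.ne' (sub_eq_zero.mp h)
      · exact hne 0 (he.trans h)
  have hv1 : ∃ c : ℝ, 0 < c ∧ act γ (w 1) = c • w 1 := by
    rcases eig n C Γ hC K d T hT w hw σ hσ lam mu hlam hlm h0 h1 _ (hmapcl _ hF1) (hne 1) mu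
      (hE 1 hF1 mu h1) with ⟨c, hc, he⟩ | ⟨c, hc, he⟩
    · exfalso
      have e1 := hE 1 hF1 mu h1
      rw [he, CC.act_smul, h0, smul_comm] at e1
      have e2 : (mu - lam) • (c • w 0) = 0 := by rw [sub_smul, e1, sub_self]
      rcases smul_eq_zero.mp e2 with h | h
      · exact hlm.ne' (sub_eq_zero.mp h)
      · exact hne 1 (he.trans h)
    · refine ⟨(s m / s m0)⁻¹ * c, mul_pos (inv_pos.mpr hr) hc, ?_⟩
      rw [mul_smul, ← he, smul_smul, inv_mul_cancel₀ hr.ne', one_smul]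
  have hvj : ∀ j : Fin K, ∃ c : ℝ, 0 < c ∧ act γ (w j.succ.succ) = c • w j.succ.succ := by
    intro j
    obtain ⟨a, ha, ea⟩ := hapx m j
    obtain ⟨b, hb, eb⟩ := hapx m0 j
    refine ⟨(s m)⁻¹ * a * b⁻¹ * s m0, by have := hs m; have := hs m0; positivity, ?_⟩
    apply CC.act_injective (g m0)
    rw [hγact, CC.act_smul]
    have e1 : act (g m) (w j.succ.succ) = ((s m)⁻¹ * a) • W j.succ.succ := by
      rw [mul_smul, ← ea, smul_smul, inv_mul_cancel₀ (hs m).ne', one_smul]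
    have e2 : W j.succ.succ = (b⁻¹ * s m0) • act (g m0) (w j.succ.succ) := by
      rw [mul_smul, eb, smul_smul, inv_mul_cancel₀ hb.ne', one_smul]
    rw [e1, e2, smul_smul]
    congr 1
    ring
  have hall : ∀ i : Fin (K + 2), ∃ c : ℝ, 0 < c ∧ act γ (w i) = c • w i := by
    intro i
    refine Fin.cases hv0 (fun j => ?_) i
    refine Fin.cases hv1 (fun k => hvj k) j
  choose c hc hcw using hall
  refine ⟨γ, hγΓ, fun i => Real.log (c i), fun i => by rw [Real.exp_log (hc i)]; exact hcw i, ?_⟩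
  -- the computation
  have hgm : ∀ i, act (g m) (w i) = c i • act (g m0) (w i) := by
    intro i
    rw [← hγact, hcw i, CC.act_smul]
  have hn0 : ∀ i, 0 < ‖act (g m0) (w i)‖ := by
    intro i
    rw [norm_pos_iff]
    intro h
    apply hw0 i
    apply CC.act_injective (g m0)
    rw [h, CC.act_zero]
  have hlogm : ∀ i, Real.log ‖s m • act (g m) (Real.exp (((φ m : ℕ) : ℝ) * ℓ i) • w i)‖ =
      Real.log (s m) + (φ m : ℝ) * ℓ i + Real.log (c i) + Real.log ‖act (g m0) (w i)‖ := by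
    intro i
    rw [CC.act_smul, hgm i, norm_smul, norm_smul, norm_smul, Real.norm_of_nonneg (hs m).le,
      Real.norm_of_nonneg (Real.exp_pos _).le, Real.norm_of_nonneg (hc i).le,
      Real.log_mul (hs m).ne' (by have := hc i; have := hn0 i; positivity),
      Real.log_mul (Real.exp_pos _).ne' (by have := hc i; have := hn0 i; positivity),
      Real.log_mul (hc i).ne' (hn0 i).ne', Real.log_exp]
    ring
  have hlogm0 : ∀ i, Real.log ‖s m0 • act (g m0) (Real.exp (((φ m0 : ℕ) : ℝ) * ℓ i) • w i)‖ =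
      Real.log (s m0) + (φ m0 : ℝ) * ℓ i + Real.log ‖act (g m0) (w i)‖ := by
    intro i
    rw [CC.act_smul, norm_smul, norm_smul, Real.norm_of_nonneg (hs m0).le,
      Real.norm_of_nonneg (Real.exp_pos _).le,
      Real.log_mul (hs m0).ne' (by have := hn0 i; positivity),
      Real.log_mul (Real.exp_pos _).ne' (hn0 i).ne', Real.log_exp]
    ring
  have hQm : Q m = (φ m : ℝ) * ∑ i, ℓ i ^ 2 + ∑ i, ℓ i * Real.log (c i) +
      ∑ i, ℓ i * Real.log ‖act (g m0) (w i)‖ := by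
    rw [hQdef]
    simp only [hlogm]
    have : ∀ i, ℓ i * (Real.log (s m) + (φ m : ℝ) * ℓ i + Real.log (c i) +
        Real.log ‖act (g m0) (w i)‖) = Real.log (s m) * ℓ i + (φ m : ℝ) * ℓ i ^ 2 +
        ℓ i * Real.log (c i) + ℓ i * Real.log ‖act (g m0) (w i)‖ := fun i => by ring
    simp only [this]
    rw [Finset.sum_add_distrib, Finset.sum_add_distrib, Finset.sum_add_distrib, ← Finset.mul_sum,
      ← Finset.mul_sum, hℓs, mul_zero, zero_add]
  have hQm0 : Q m0 = (φ m0 : ℝ) * ∑ i, ℓ i ^ 2 +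
      ∑ i, ℓ i * Real.log ‖act (g m0) (w i)‖ := by
    rw [hQdef]
    simp only [hlogm0]
    have : ∀ i, ℓ i * (Real.log (s m0) + (φ m0 : ℝ) * ℓ i +
        Real.log ‖act (g m0) (w i)‖) = Real.log (s m0) * ℓ i + (φ m0 : ℝ) * ℓ i ^ 2 +
        ℓ i * Real.log ‖act (g m0) (w i)‖ := fun i => by ring
    simp only [this]
    rw [Finset.sum_add_distrib, Finset.sum_add_distrib, ← Finset.mul_sum,
      ← Finset.mul_sum, hℓs, mul_zero, zero_add]
  rw [hQm, hQm0] at hlt
  intro h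
  rw [h] at hlt
  linarith

end Pool.Agent.PFB.H28
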